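import Pool.Agent.Lib.MP_356dfe_ag.Proj

/-! The sign of the intersection homology Euler characteristic of a projective variety with isolated
singularities that has a Stein Galois covering with amenable group. -/

set_option autoImplicit false

namespace Pool.Agent.Results.MP_356dfe_ag.AmenableIsolated

open Pool.Agent.Lib.MP_356dfe_ag

theorem result {N n : ℕ} (I : Finset (MvPolynomial (Fin (N + 1)) ℂ))
    (hS : (Sing (Var I) n).Finite) {Y G : Type} [TopologicalSpace Y] [Group G] [MulAction G Y]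
    (p : Y → Var I) (hp : IsQuotientCoveringMap p G) (hG : Amenable G) (hY : Stein p) :
    (∀ i, Module.Finite ℚ (IH (Var I) (Sing (Var I) n) n i)) ∧
      {i | Module.finrank ℚ (IH (Var I) (Sing (Var I) n) n i) ≠ 0}.Finite ∧
      0 ≤ (-1 : ℤ) ^ n *
        ∑ᶠ i : ℕ, (-1 : ℤ) ^ i * (Module.finrank ℚ (IH (Var I) (Sing (Var I) n) n i) : ℤ) := by
  classical
  have := pn_t2 (N := N)
  have := var_compact (I := I)
  obtain ⟨ρ, ε, R⟩ := exists_rug hS
  obtain ⟨Mx, r, h1, h2, h3⟩ := R.main hp hG.folner (hols hp.isCoveringMap hS hY) _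
    (exists_cmp (Sing (Var I) n)ᶜ)
  have h4 : ∀ i, Module.Finite ℚ (IH (Var I) (Sing (Var I) n) n i) ∧
      Module.finrank ℚ (IH (Var I) (Sing (Var I) n) n i) = r i := fun i => by
    rcases lt_trichotomy i n with h | h | h
    · rw [IH, if_pos h]
      exact (h3 i).1 h
    · rw [IH, if_neg h.not_lt, if_pos h]
      exact (h3 i).2.1 h
    · rw [IH, if_neg h.not_gt, if_neg h.ne']
      exact (h3 i).2.2 h
  simp only [(h4 _).2]
  refine ⟨fun i => (h4 i).1, (Set.finite_lt_nat Mx).subset fun i hi =>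
    not_le.1 fun h => hi (h1 i h), ?_⟩
  rwa [finsum_eq_sum_of_support_subset (s := Finset.range Mx) _ fun i hi =>
    Finset.mem_coe.2 (Finset.mem_range.2 (not_le.1 fun h => hi (by simp [h1 i h])))]

end Pool.Agent.Results.MP_356dfe_ag.AmenableIsolated
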