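import Pool.Agent.Lib.MP_356dfe_ag.R.Main

/-! The sign of the intersection homology Euler characteristic of a projective surface that is
finite over a space with a Galois covering on which holomorphic functions separate nearby points. -/

set_option autoImplicit false

open Filter Topology

namespace Pool.Agent.Results.MP_356dfe_ag.Surfaces

open Pool.Agent.Lib.MP_356dfe_ag

theorem result {N K : ℕ} (I : Finset (MvPolynomial (Fin (N + 1)) ℂ))
    (hS : (Sing (Var I) 2).Finite) {X : Set (PN K)} (ν : Var I → X)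
    (hν : ∀ x, HolMap ν x) (hf : ∀ x, (ν ⁻¹' {x}).Finite) {Y G : Type} [TopologicalSpace Y]
    [Group G] [MulAction G Y] (p : Y → X) (hp : IsQuotientCoveringMap p G)
    (hY : ∀ y, ∀ᶠ y' in 𝓝 y, y' ≠ y → ∃ f, Hol p f ∧ f y ≠ f y') :
    (∀ i, Module.Finite ℚ (IH (Var I) (Sing (Var I) 2) 2 i)) ∧
      {i | Module.finrank ℚ (IH (Var I) (Sing (Var I) 2) 2 i) ≠ 0}.Finite ∧
      0 ≤ ∑ᶠ i : ℕ, (-1 : ℤ) ^ i * (Module.finrank ℚ (IH (Var I) (Sing (Var I) 2) 2 i) : ℤ) :=
  R.main I hS ν hν hf p hp hY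

end Pool.Agent.Results.MP_356dfe_ag.Surfaces
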